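import Pool.Agent.PSS.StmtsS5
import Pool.Agent.PFC.StmtsB4a
import Pool.Agent.PFC.B4.Key
import Pool.Agent.Helper21_PSS.DRF
import Pool.Agent.Helper21_PSS.LMB

/-!
# Squad PSS, row NDL: the dimension of the elements fixed by the right multiplication with `V`
-/

set_option autoImplicit false

open scoped BigOperators

noncomputable section

namespace Pool.Agent.PSS.S5.H8

open Pool.Agent.PSS Pool.Agent.PSS.S5
open Pool.Agent.PFC (IsTv tw Fx BK IsFr)
open Pool.Agent.PSS.H21.DRF (pt pt_bij)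

theorem ndl (hdim : PFC.DimStmt) : NdlStmt := by
  classical
  intro ℓ _ F V E A _ _ _ _ _ _ _ φ α hV hφ hL L hLm
  obtain ⟨lam, K, _, x, y, hRF, hlam⟩ := hL.frm
  obtain ⟨Ω, _, _, b, c, hF, hst⟩ := hL.per
  have hstab : ∀ (u v : V) (ω : Ω), ((u, v) : V × V) • ω = ω → u = v := by
    intro u v ω h
    obtain ⟨e, S, hS⟩ := hst ω
    have h1 : ((u, v) : V × V) ∈ MulAction.stabilizer (V × V) ω := h
    rw [hS] at h1
    obtain ⟨s, -, hs⟩ := h1
    have h2 : φ e s = u := congrArg Prod.fst hs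
    have h3 : s = v := congrArg Prod.snd hs
    rw [hφ e, MulAut.one_apply] at h2
    rw [← h2, h3]
  have hfree : ∀ (v : V) (ω : Ω), ((1, v) : V × V) • ω = ω → v = 1 := fun v ω h =>
    (hstab 1 v ω h).symm
  obtain ⟨σ, hσ⟩ : ∃ σ : A, σ = ∑ v, α v := ⟨_, rfl⟩
  have hσr : ∀ v, σ * α v = σ := by
    intro v
    rw [hσ, Finset.sum_mul]
    exact Fintype.sum_bijective (fun u => u * v) (Group.mulRight_bijective v) _ _ fun u => by
      rw [map_mul]
  have hσl : ∀ v, α v * σ = σ := by
    intro v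
    rw [hσ, Finset.mul_sum]
    exact Fintype.sum_bijective (fun u => v * u) (Group.mulLeft_bijective v) _ _ fun u => by
      rw [map_mul]
  have hLr : ∀ l ∈ L, ∀ v, l * α v = l := fun l hl => (hLm l).1 hl
  have hLst : ∀ u, ∀ l ∈ L, LinearMap.mulLeft F (α u) l ∈ L := by
    intro u l hl
    rw [hLm]
    intro v
    rw [LinearMap.mulLeft_apply, mul_assoc, hLr l hl]
  have hRm : ∀ a : A, LinearMap.mulRight F σ a ∈ L := by
    intro a
    rw [hLm]
    intro v
    rw [LinearMap.mulRight_apply, mul_assoc, hσr]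
  obtain ⟨ρ, hρ⟩ : ∃ ρ : V →* (L →ₗ[F] L), ∀ u l, ((ρ u l : L) : A) = α u * l := by
    refine ⟨{
      toFun := fun u => (LinearMap.mulLeft F (α u)).restrict (hLst u)
      map_one' := by
        refine LinearMap.ext fun l => Subtype.ext ?_
        show α 1 * (l : A) = l
        rw [map_one, one_mul]
      map_mul' := by
        intro u v
        refine LinearMap.ext fun l => Subtype.ext ?_
        show α (u * v) * (l : A) = α u * (α v * l)
        rw [map_mul, mul_assoc] }, fun u l => rfl⟩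
  obtain ⟨Rs, hRs⟩ : ∃ Rs : A →ₗ[F] L, ∀ a, ((Rs a : L) : A) = a * σ :=
    ⟨LinearMap.codRestrict L (LinearMap.mulRight F σ) hRm, fun a => rfl⟩
  obtain ⟨π, hπ⟩ : ∃ π : L →ₗ[F] F, ∀ l, π l = lam (l : A) :=
    ⟨lam.comp L.subtype, fun l => rfl⟩
  -- the frame
  let hact : MulAction V (Qt (V := V) Ω) :=
    MulAction.compHom (Qt (V := V) Ω) (MonoidHom.inl V V)
  have hsm : ∀ (h : V) (k : Qt (V := V) Ω), ∃ v : V, (h • k).rep = ((h, v) : V × V) • k.rep := by
    intro h k
    have h1 : (qmk ((((h, 1) : V × V)) • k.rep) : Qt (V := V) Ω) = qmk (h • k).rep := by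
      rw [Qt.mk_rep, ← smul_qmk, Qt.mk_rep]
      rfl
    obtain ⟨v, hv⟩ := qmk_eq.1 h1
    refine ⟨v, ?_⟩
    rw [← hv, smul_smul, Prod.mk_mul_mk, one_mul, mul_one]
  have hbw : ∀ (u v : V) (a : A), bw F α (u, v) a = α u * (a * α v⁻¹) := fun _ _ _ => rfl
  obtain ⟨b', hb'⟩ : ∃ b' : Qt (V := V) Ω → L, ∀ k, b' k = Rs (b k.rep) := ⟨_, fun k => rfl⟩
  obtain ⟨c', hc'⟩ : ∃ c' : Qt (V := V) Ω → (L →ₗ[F] F), ∀ k l, c' k l = c k.rep (l : A) :=
    ⟨fun k => (c k.rep).comp L.subtype, fun k l => rfl⟩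
  have hfr : IsFr ρ b' c' := by
    refine ⟨?_, ?_, ?_⟩
    · intro h k
      obtain ⟨v, hv⟩ := hsm h k
      refine Subtype.ext ?_
      rw [hρ, hb', hb', hRs, hRs, hv, hF.1, hbw, mul_assoc, mul_assoc, hσl]
    · intro h k l
      obtain ⟨v, hv⟩ := hsm h k
      rw [hc', hc', hρ, hv, ← hF.2.1 (h, v) k.rep (l : A), hbw, hLr l l.2]
    · intro l
      refine Subtype.ext ?_
      conv_rhs => rw [← hF.2.2 (l : A)]
      rw [← Fintype.sum_bijective (pt : Qt (V := V) Ω × V → Ω) (pt_bij hfree)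
        (fun p => c (pt p) (l : A) • b (pt p)) _ (fun p => rfl), Fintype.sum_prod_type,
        Submodule.coe_sum]
      refine Finset.sum_congr rfl fun k _ => ?_
      rw [Submodule.coe_smul, hc', hb', hRs, hσ, Finset.mul_sum, Finset.smul_sum]
      refine Finset.sum_congr rfl fun v _ => ?_
      have h1 : b (pt (k, v)) = b k.rep * α v := by
        show b (((1, v⁻¹) : V × V) • k.rep) = _
        rw [hF.1, hbw, map_one, one_mul, inv_inv]
      have h2 : c (pt (k, v)) (l : A) = c k.rep (l : A) := by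
        show c (((1, v⁻¹) : V × V) • k.rep) (l : A) = _
        rw [← hF.2.1 (1, v⁻¹) k.rep (l : A), hbw, map_one, one_mul, hLr l l.2]
      rw [h1, h2]
  -- the form vanishes on the traces
  have hBK : ∀ n ∈ BK ρ ⊤, π n = 0 := by
    intro n hn
    unfold BK at hn
    induction hn using Submodule.span_induction with
    | mem n hn =>
      obtain ⟨P', S, m, hlt, hS, -, rfl⟩ := hn
      have h1 : ∀ x ∈ S, π (ρ x m) = π m := by
        intro x _
        rw [hπ, hπ, hρ, hRF.sym, hLr m m.2]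
      rw [map_sum, Finset.sum_congr rfl h1, Finset.sum_const, nsmul_eq_mul,
        H21.LMB.tv_zero ℓ (CharP.cast_eq_zero F ℓ) (hV.to_subgroup ⊤) hlt hS, zero_mul]
    | zero => exact map_zero _
    | add a b _ _ ha hb => rw [map_add, ha, hb, add_zero]
    | smul r a _ ha => rw [map_smul, ha, smul_zero]
  -- the traces of A go to traces
  have hRB : ∀ n ∈ BKR (cw F α) ⊤, Rs n ∈ BK ρ ⊤ := by
    intro n hn
    unfold BKR at hn
    induction hn using Submodule.span_induction with
    | mem n hn =>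
      obtain ⟨P', S, m, hlt, hS, hm, rfl⟩ := hn
      refine Submodule.subset_span ⟨P', S, Rs m, hlt, hS, ?_, ?_⟩
      · intro h hh
        refine Subtype.ext ?_
        rw [hρ, hRs, ← mul_assoc, mem_cw.1 hm h hh, mul_assoc, hσl]
      · rw [map_sum]
        refine Finset.sum_congr rfl fun x _ => Subtype.ext ?_
        rw [hρ, hRs, hRs]
        show α x * (m * α x⁻¹) * σ = α x * (m * σ)
        rw [mul_assoc, mul_assoc, hσl]
    | zero => rw [map_zero]; exact Submodule.zero_mem _
    | add a b _ _ ha hb => rw [map_add]; exact Submodule.add_mem _ ha hb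
    | smul r a _ ha => rw [map_smul]; exact Submodule.smul_mem _ r ha
  have hσL : σ ∈ L := (hLm σ).2 hσr
  have hBQ : PFC.IsBQ ρ ⊤ π := by
    refine ⟨fun m hm => ⟨fun h0 => ?_, hBK m⟩, fun n => ?_⟩
    · have hfix : ∀ k : Qt (V := V) Ω, (∀ h ∈ (⊤ : Subgroup V), h • k = k) →
          b' k ∈ BK ρ ⊤ ⊔ Submodule.span F {(⟨σ, hσL⟩ : L)} := by
        intro k hk
        have h1 : b k.rep ∈ FxR (cw F α) ⊤ := by
          intro u _
          have h2 : (qmk ((((u, 1) : V × V)) • k.rep) : Qt (V := V) Ω) = qmk k.rep := by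
            rw [← smul_qmk, Qt.mk_rep]
            exact hk u (Subgroup.mem_top u)
          obtain ⟨v, hv⟩ := qmk_eq.1 h2
          rw [smul_smul, Prod.mk_mul_mk, one_mul, mul_one] at hv
          have h3 := hstab u v _ hv
          rw [← h3] at hv
          show bw F α (u, u) (b k.rep) = b k.rep
          rw [← hF.1, hv]
        obtain ⟨f, hf⟩ := hL.spn _ h1
        have h2 : b' k = Rs (b k.rep - ∑ u, f u • α u) + (∑ u, f u) • (⟨σ, hσL⟩ : L) := by
          refine Subtype.ext ?_
          rw [Submodule.coe_add, Submodule.coe_smul, hb', hRs, hRs, sub_mul, Finset.sum_mul,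
            Finset.sum_smul]
          have h3 : ∑ u, f u • α u * σ = ∑ u, f u • σ :=
            Finset.sum_congr rfl fun u _ => by rw [smul_mul_assoc, hσl]
          rw [h3]
          exact (sub_add_cancel _ _).symm
        rw [h2]
        exact Submodule.add_mem_sup (hRB _ hf)
          (Submodule.smul_mem _ _ (Submodule.mem_span_singleton_self _))
      have h1 := PFC.frame_sub hfr ⊤ hm
      have h2 : m ∈ BK ρ ⊤ ⊔ Submodule.span F {(⟨σ, hσL⟩ : L)} := by
        have h3 : m = (m - ∑ k ∈ PFC.fp (⊤ : Subgroup V) (Qt (V := V) Ω), c' k m • b' k) +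
            ∑ k ∈ PFC.fp (⊤ : Subgroup V) (Qt (V := V) Ω), c' k m • b' k := (sub_add_cancel _ _).symm
        rw [h3]
        refine Submodule.add_mem _ (Submodule.mem_sup_left h1) (Submodule.sum_mem _ fun k hk => ?_)
        exact Submodule.smul_mem _ _ (hfix k ((PFC.mem_fp (⊤ : Subgroup V) (Qt (V := V) Ω) k).1 hk))
      obtain ⟨n, hn, s, hs, hns⟩ := Submodule.mem_sup.1 h2
      obtain ⟨t, rfl⟩ := Submodule.mem_span_singleton.1 hs
      have h3 : t * lam σ = 0 := by
        have h4 := congrArg π hns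
        rw [map_add, hBK n hn, zero_add, map_smul, hπ, h0, smul_eq_mul] at h4
        exact h4
      rcases mul_eq_zero.1 h3 with h4 | h4
      · rw [h4, zero_smul, add_zero] at hns
        rw [← hns]
        exact hn
      · rw [hσ] at h4
        exact absurd h4 hlam
    · refine ⟨(n / lam σ) • (⟨σ, hσL⟩ : L), ?_, ?_⟩
      · intro h _
        rw [map_smul]
        refine congrArg _ (Subtype.ext ?_)
        rw [hρ]
        exact hσl h
      · rw [map_smul, hπ, smul_eq_mul]
        refine div_mul_cancel₀ n ?_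
        rw [hσ]
        exact hlam
  have h1 := hdim ℓ F V L F ρ (fun _ => True) ⟨Qt (V := V) Ω, inferInstance, hact, b', c', hfr,
    fun _ => trivial⟩ ⊤ (hV.to_subgroup ⊤) π hBQ
  rw [h1, Module.finrank_self, Nat.cast_one]

end Pool.Agent.PSS.S5.H8
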