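import Pool.Agent.PSS.StmtsS5
import Pool.Agent.Helper21_PSS.LMB

/-!
# Squad PSS, row NQB: the quotient and the Brauer kernel
-/

set_option autoImplicit false

open scoped BigOperators

noncomputable section

namespace Pool.Agent.PSS.S5.H8

open Pool.Agent.PSS Pool.Agent.PSS.S5
open Pool.Agent.PFC (IsTv)

/-- The sum of a function which is invariant under `R` over a transversal of `P' < R` vanishes. -/
theorem tv_inv {ℓ : ℕ} [Fact ℓ.Prime] {F V M : Type} [Field F] [CharP F ℓ] [CommGroup V]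
    [Fintype V] [AddCommGroup M] [Module F M] (hV : IsPGroup ℓ V) (P' R : Subgroup V)
    (hlt : P' < R) (S : Finset V) (hS : IsTv P' ⊤ S) (G : V → M)
    (hG : ∀ v, ∀ r ∈ R, G (v * r) = G v) : ∑ x ∈ S, G x = 0 := by
  classical
  have : Fintype (V ⧸ R) := Fintype.ofFinite _
  rw [← Finset.sum_fiberwise S (fun x : V => (x : V ⧸ R)) G]
  refine Finset.sum_eq_zero fun c _ => ?_
  obtain ⟨t, rfl⟩ : ∃ t : V, (t : V ⧸ R) = c := ⟨c.out, QuotientGroup.out_eq' c⟩
  have hmem : ∀ x ∈ S.filter (fun x : V => (x : V ⧸ R) = (t : V ⧸ R)), t⁻¹ * x ∈ R := by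
    intro x hx
    rw [Finset.mem_filter] at hx
    exact QuotientGroup.eq.1 hx.2.symm
  have h1 : ∀ x ∈ S.filter (fun x : V => (x : V ⧸ R) = (t : V ⧸ R)), G x = G t := by
    intro x hx
    have h2 := hG t _ (hmem x hx)
    rw [mul_inv_cancel_left] at h2
    exact h2
  rw [Finset.sum_congr rfl h1, Finset.sum_const]
  have htv : IsTv P' R ((S.filter (fun x : V => (x : V ⧸ R) = (t : V ⧸ R))).image
      (fun x : V => t⁻¹ * x)) := by
    constructor
    · intro s hs
      obtain ⟨x, hx, rfl⟩ := Finset.mem_image.1 hs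
      exact hmem x hx
    · intro p hp
      obtain ⟨x, ⟨hx, hx'⟩, hu⟩ := hS.2 (t * p) (Subgroup.mem_top _)
      refine ⟨t⁻¹ * x, ⟨Finset.mem_image.2 ⟨x, Finset.mem_filter.2 ⟨hx, ?_⟩, rfl⟩, ?_⟩, ?_⟩
      · rw [eq_comm, QuotientGroup.eq]
        have h3 : t⁻¹ * x = p * (x⁻¹ * (t * p))⁻¹ := by
          rw [mul_inv, mul_inv, inv_inv, mul_comm t⁻¹ p⁻¹]
          rw [mul_comm x, mul_assoc, mul_inv_cancel_left]
        rw [h3]
        exact R.mul_mem hp (R.inv_mem (hlt.le hx'))
      · rw [mul_inv, inv_inv, mul_comm t, mul_assoc]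
        exact hx'
      · rintro s ⟨hs, hs'⟩
        obtain ⟨z, hz, rfl⟩ := Finset.mem_image.1 hs
        have hz' := hu z ⟨(Finset.mem_filter.1 hz).1, by
          have h4 : z⁻¹ * (t * p) = (t⁻¹ * z)⁻¹ * p := by
            rw [mul_inv, inv_inv, mul_assoc, mul_left_comm]
          rw [h4]
          exact hs'⟩
        show t⁻¹ * z = t⁻¹ * x
        rw [hz']
  have h5 := H21.LMB.tv_zero ℓ (R := F) (CharP.cast_eq_zero F ℓ) (hV.to_subgroup R) hlt htv
  rw [Finset.card_image_of_injective _ (mul_right_injective t⁻¹)] at h5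
  rw [← Nat.cast_smul_eq_nsmul F, h5, zero_smul]

theorem nqb : NqbStmt := by
  classical
  intro ℓ _ F V A A' _ _ _ _ _ _ _ _ α Q _ α' p hV hQ a ha
  have hcw : ∀ (v : V) (m : A), p (cw F α v m) = cw F α' (v : V ⧸ Q) (p m) := by
    intro v m
    show p (α v * (m * α v⁻¹)) = α' (v : V ⧸ Q) * (p m * α' (v : V ⧸ Q)⁻¹)
    rw [map_mul, map_mul, hQ.cov, hQ.cov, QuotientGroup.mk_inv]
  unfold BKR at ha
  induction ha using Submodule.span_induction with
  | mem n hn =>
    obtain ⟨P', S, m, hlt, hS, hm, rfl⟩ := hn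
    by_cases hle : Q ≤ P'
    · refine Submodule.subset_span ⟨P'.map (QuotientGroup.mk' Q),
        S.image (fun x : V => (x : V ⧸ Q)), p m, ?_, ⟨fun s _ => Subgroup.mem_top s, ?_⟩, ?_, ?_⟩
      · rw [lt_top_iff_ne_top]
        intro h
        apply hlt.ne
        have h1 := congrArg (Subgroup.comap (QuotientGroup.mk' Q)) h
        rw [Subgroup.comap_map_eq, QuotientGroup.ker_mk', Subgroup.comap_top,
          sup_eq_left.2 hle] at h1
        exact h1
      · intro c _
        obtain ⟨t, rfl⟩ : ∃ t : V, (t : V ⧸ Q) = c := ⟨c.out, QuotientGroup.out_eq' c⟩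
        obtain ⟨x, ⟨hx, hx'⟩, hu⟩ := hS.2 t (Subgroup.mem_top _)
        refine ⟨(x : V ⧸ Q), ⟨Finset.mem_image.2 ⟨x, hx, rfl⟩, ?_⟩, ?_⟩
        · exact Subgroup.mem_map.2 ⟨x⁻¹ * t, hx', rfl⟩
        · rintro s ⟨hs, hs'⟩
          obtain ⟨z, hz, rfl⟩ := Finset.mem_image.1 hs
          obtain ⟨w, hw, hw'⟩ := Subgroup.mem_map.1 hs'
          have h2 : ((w : V) : V ⧸ Q) = ((z⁻¹ * t : V) : V ⧸ Q) := hw'
          have h3 := hle (QuotientGroup.eq.1 h2)
          have h4 : z⁻¹ * t ∈ P' := by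
            have h5 := P'.mul_mem hw h3
            rwa [mul_inv_cancel_left] at h5
          rw [hu z ⟨hz, h4⟩]
      · intro c hc
        obtain ⟨w, hw, rfl⟩ := Subgroup.mem_map.1 hc
        have h1 := hcw w m
        rw [hm w hw] at h1
        exact h1.symm
      · rw [map_sum, Finset.sum_image]
        · exact Finset.sum_congr rfl fun x _ => hcw x m
        · intro x hx z hz hxz
          obtain ⟨s, _, hu⟩ := hS.2 z (Subgroup.mem_top _)
          have h1 : x = s := hu x ⟨hx, hle (QuotientGroup.eq.1 hxz)⟩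
          have h2 : z = s := hu z ⟨hz, by rw [inv_mul_cancel]; exact P'.one_mem⟩
          rw [h1, h2]
    · have hR : P' < P' ⊔ Q := by
        rw [left_lt_sup]
        exact hle
      have h0 : ∑ x ∈ S, cw F α x m = 0 := by
        refine tv_inv (F := F) hV P' (P' ⊔ Q) hR S hS (fun x => cw F α x m) ?_
        intro v r hr
        show cw F α (v * r) m = cw F α v m
        rw [map_mul]
        show cw F α v (cw F α r m) = cw F α v m
        obtain ⟨w, hw, q, hq, rfl⟩ := Subgroup.mem_sup.1 hr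
        have h1 : cw F α q m = m := by
          show α q * (m * α q⁻¹) = m
          rw [← mul_assoc, hQ.cen q hq, mul_assoc, ← map_mul, mul_inv_cancel, map_one, mul_one]
        rw [map_mul]
        show cw F α v (cw F α w (cw F α q m)) = cw F α v m
        rw [h1, hm w hw]
      rw [h0, map_zero]
      exact Submodule.zero_mem _
  | zero => rw [map_zero]; exact Submodule.zero_mem _
  | add a b _ _ ha hb => rw [map_add]; exact Submodule.add_mem _ ha hb
  | smul c a _ ha => rw [map_smul]; exact Submodule.smul_mem _ c ha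

end Pool.Agent.PSS.S5.H8
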