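import Pool.Agent.PSS.StmtsS5

/-!
# Squad PSS, row NQR: the form of the quotient by a central subgroup, and the kernel
-/

set_option autoImplicit false

open scoped BigOperators

noncomputable section

namespace Pool.Agent.PSS.S5.H8

open Pool.Agent.PSS Pool.Agent.PSS.S5

/-- Sums over `V` as sums over the cosets of `Q`. -/
theorem sum_quot {V M : Type} [CommGroup V] [Fintype V] [AddCommMonoid M] (Q : Subgroup V)
    [Fintype Q] [Fintype (V ⧸ Q)] (f : V → M) :
    ∑ v, f v = ∑ u : V ⧸ Q, ∑ q : Q, f (u.out * q) := by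
  rw [← Fintype.sum_prod_type' (fun (u : V ⧸ Q) (q : Q) => f (u.out * q))]
  symm
  refine Fintype.sum_bijective (fun p : (V ⧸ Q) × Q => (p.1.out * p.2 : V)) ⟨?_, ?_⟩ _ _
    fun p => rfl
  · rintro ⟨u, q⟩ ⟨u', q'⟩ h
    have h' : (u.out * q : V) = u'.out * q' := h
    have hmk : ∀ (w : V ⧸ Q) (r : Q), ((w.out * r : V) : V ⧸ Q) = w := by
      intro w r
      rw [QuotientGroup.mk_mul_of_mem _ r.2, QuotientGroup.out_eq']
    have h1 : u = u' := by
      rw [← hmk u q, ← hmk u' q', h']
    subst h1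
    rw [Prod.mk.injEq]
    exact ⟨rfl, Subtype.ext (mul_left_cancel h')⟩
  · intro v
    have h1 : ((v : V ⧸ Q).out)⁻¹ * v ∈ Q := by
      rw [← QuotientGroup.eq, QuotientGroup.out_eq']
    exact ⟨((v : V ⧸ Q), ⟨_, h1⟩), mul_inv_cancel_left _ v⟩

/-- A combination of central nilpotent elements is nilpotent. -/
theorem nil_sum {A ι : Type} [Ring A] (c : ι → A) (hc : ∀ i a, c i * a = a * c i)
    (hn : ∀ i, IsNilpotent (c i)) (b : ι → A) (T : Finset ι) :
    IsNilpotent (∑ i ∈ T, c i * b i) := by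
  classical
  induction T using Finset.induction_on with
  | empty => simp
  | insert i T hi ih =>
    rw [Finset.sum_insert hi]
    obtain ⟨n, hn1⟩ := ih
    obtain ⟨m, hm⟩ := hn i
    have key : ∀ k : ℕ, ∃ d, (c i * b i + ∑ j ∈ T, c j * b j) ^ k =
        c i * d + (∑ j ∈ T, c j * b j) ^ k := by
      intro k
      induction k with
      | zero => exact ⟨0, by rw [pow_zero, pow_zero, mul_zero, zero_add]⟩
      | succ k ih =>
        obtain ⟨d, hd⟩ := ih
        refine ⟨d * (c i * b i + ∑ j ∈ T, c j * b j) + (∑ j ∈ T, c j * b j) ^ k * b i, ?_⟩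
        rw [pow_succ, hd, pow_succ (∑ j ∈ T, c j * b j)]
        have h1 : (∑ j ∈ T, c j * b j) ^ k * (c i * b i) =
            c i * ((∑ j ∈ T, c j * b j) ^ k * b i) := by
          rw [← mul_assoc, ← mul_assoc, hc]
        rw [add_mul, mul_add ((∑ j ∈ T, c j * b j) ^ k), h1, mul_add (c i), mul_assoc (c i)]
        abel
    obtain ⟨d, hd⟩ := key n
    rw [hn1, add_zero] at hd
    refine ⟨n * m, ?_⟩
    rw [pow_mul, hd, (show Commute (c i) d from hc i d).mul_pow, hm, zero_mul]

theorem nqr : NqrStmt := by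
  classical
  intro ℓ _ F V A A' K _ _ _ _ _ _ _ _ _ α lam x y Q _ _ α' p hV hQ hRF
  have hq1 : ∀ q : Q, p (α q) = 1 := by
    intro q
    rw [hQ.cov, (QuotientGroup.eq_one_iff (q : V)).2 q.2, map_one]
  have hsc : ∀ a, (∑ q : Q, α q) * a = a * ∑ q : Q, α q := by
    intro a
    rw [Finset.sum_mul, Finset.mul_sum]
    exact Finset.sum_congr rfl fun q _ => hQ.cen q q.2 a
  have hpe : ∀ a b, p a = p b → (∑ q : Q, α q) * a = (∑ q : Q, α q) * b := by
    intro a b h
    rw [← sub_eq_zero, ← mul_sub]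
    refine (hQ.ker _).1 ?_
    rw [map_sub, h, sub_self]
  choose r hr using hQ.sur
  have hinv : ∀ z : A, ∑ q : Q, lam (α (q : V)⁻¹ * z) = lam ((∑ q : Q, α q) * z) := by
    intro z
    rw [Finset.sum_mul, map_sum]
    exact Fintype.sum_bijective (fun q : Q => q⁻¹) (inv_involutive.bijective) _ _
      fun q => by rw [Subgroup.coe_inv]
  have hinv' : ∀ z : A, ∑ q : Q, lam (z * α q) = lam (z * ∑ q : Q, α q) := by
    intro z
    rw [Finset.mul_sum, map_sum]
  obtain ⟨lam', hlam⟩ : ∃ lam' : A' →ₗ[F] F, ∀ a, lam' (p a) = lam ((∑ q : Q, α q) * a) := by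
    refine ⟨{
      toFun := fun b => lam ((∑ q : Q, α q) * r b)
      map_add' := fun b c => by
        rw [← map_add, ← mul_add]
        refine congrArg lam (hpe _ _ ?_)
        rw [map_add, hr, hr, hr]
      map_smul' := fun s b => by
        rw [RingHom.id_apply, ← map_smul, ← mul_smul_comm]
        refine congrArg lam (hpe _ _ ?_)
        rw [map_smul, hr, hr] }, fun a => ?_⟩
    exact congrArg lam (hpe _ _ (hr _))
  have hout : ∀ u : V ⧸ Q, α' u = p (α u.out) := by
    intro u
    rw [hQ.cov, QuotientGroup.out_eq']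
  have hout' : ∀ u : V ⧸ Q, α' u⁻¹ = p (α u.out⁻¹) := by
    intro u
    rw [hQ.cov, QuotientGroup.mk_inv, QuotientGroup.out_eq']
  have hpq : ∀ (t : V) (q : Q), p (α (t * q)) = p (α t) := by
    intro t q
    rw [map_mul, map_mul, hq1, mul_one]
  have hpq' : ∀ (t : V) (q : Q), p (α (t * q)⁻¹) = p (α t⁻¹) := by
    intro t q
    have h1 : (t * (q : V))⁻¹ = t⁻¹ * ((q⁻¹ : Q) : V) := by
      rw [mul_inv, Subgroup.coe_inv]
    rw [h1, hpq]
  refine ⟨⟨lam', ⟨?_, ?_, ?_⟩, ?_⟩, ?_⟩
  · intro a b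
    obtain ⟨a, rfl⟩ := hQ.sur a
    obtain ⟨b, rfl⟩ := hQ.sur b
    rw [← map_mul, ← map_mul, hlam, hlam, ← mul_assoc, hRF.sym, ← mul_assoc, ← hsc b, mul_assoc]
  · intro a
    obtain ⟨a, rfl⟩ := hQ.sur a
    conv_rhs => rw [← hRF.e1 a]
    rw [map_sum]
    refine Finset.sum_congr rfl fun k _ => ?_
    rw [sum_quot Q, map_sum]
    refine Finset.sum_congr rfl fun u _ => ?_
    rw [map_sum, hout', hout, ← map_mul, ← map_mul, hlam, ← hinv, Finset.sum_smul]
    refine Finset.sum_congr rfl fun q _ => ?_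
    rw [map_smul, map_mul p (x k), hpq]
    refine congrArg₂ (fun s t => lam s • t) ?_ rfl
    rw [← mul_assoc, ← mul_assoc, ← map_mul, mul_inv, mul_comm (u.out)⁻¹]
  · intro a
    obtain ⟨a, rfl⟩ := hQ.sur a
    conv_rhs => rw [← hRF.e2 a]
    rw [map_sum]
    refine Finset.sum_congr rfl fun k _ => ?_
    rw [sum_quot Q, map_sum]
    refine Finset.sum_congr rfl fun u _ => ?_
    rw [map_sum, hout', hout, ← map_mul, ← map_mul, hlam, hsc, ← hinv', Finset.sum_smul]
    refine Finset.sum_congr rfl fun q _ => ?_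
    rw [map_smul, map_mul p _ (y k), hpq']
    refine congrArg₂ (fun s t => lam s • t) ?_ rfl
    rw [mul_assoc, mul_assoc (x k), ← map_mul]
  · have h1 : ∑ u, α' u = p (∑ u : V ⧸ Q, α u.out) := by
      rw [map_sum]
      exact Finset.sum_congr rfl fun u _ => hout u
    rw [h1, hlam, sum_quot Q, hsc, Finset.sum_mul]
    refine congrArg lam (Finset.sum_congr rfl fun u _ => ?_)
    rw [Finset.mul_sum]
    refine Finset.sum_congr rfl fun q _ => ?_
    rw [map_mul]
  · intro a ha
    have ha' := (hQ.ker a).1 ha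
    rcases subsingleton_or_nontrivial A with hA | hA
    · exact ⟨1, Subsingleton.elim _ _⟩
    have hcp : CharP A ℓ := charP_of_injective_algebraMap (algebraMap F A).injective ℓ
    obtain ⟨h, hh⟩ : ∃ h : A →ₗ[F] A, ∀ a, h a =
        ∑ k, ∑ u : V ⧸ Q, lam (α u.out⁻¹ * y k * a) • (x k * α u.out) := by
      refine ⟨{
        toFun := fun a => ∑ k, ∑ u : V ⧸ Q, lam (α u.out⁻¹ * y k * a) • (x k * α u.out)
        map_add' := fun a b => by
          rw [← Finset.sum_add_distrib]
          refine Finset.sum_congr rfl fun k _ => ?_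
          rw [← Finset.sum_add_distrib]
          refine Finset.sum_congr rfl fun u _ => ?_
          rw [mul_add, map_add, add_smul]
        map_smul' := fun s a => by
          rw [RingHom.id_apply, Finset.smul_sum]
          refine Finset.sum_congr rfl fun k _ => ?_
          rw [Finset.smul_sum]
          refine Finset.sum_congr rfl fun u _ => ?_
          rw [mul_smul_comm, map_smul, smul_eq_mul, mul_smul] }, fun a => rfl⟩
    have hsum : a = ∑ q : Q, α q * h (α (q : V)⁻¹ * a) := by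
      conv_lhs => rw [← hRF.e1 a]
      have e1 : ∀ q : Q, α q * h (α (q : V)⁻¹ * a) =
          ∑ k, ∑ u : V ⧸ Q, lam (α (u.out * q)⁻¹ * y k * a) • (x k * α (u.out * q)) := by
        intro q
        rw [hh, Finset.mul_sum]
        refine Finset.sum_congr rfl fun k _ => ?_
        rw [Finset.mul_sum]
        refine Finset.sum_congr rfl fun u _ => ?_
        rw [mul_smul_comm, map_mul α u.out, hQ.cen q q.2, mul_assoc (x k)]
        refine congrArg₂ (fun s t => lam s • t) ?_ rfl
        have hc := hQ.cen (q : V)⁻¹ (Q.inv_mem q.2) (y k)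
        rw [mul_inv, map_mul, mul_assoc (α u.out⁻¹) (α (q : V)⁻¹), hc, mul_assoc, mul_assoc,
          mul_assoc]
      rw [Finset.sum_congr rfl fun q _ => e1 q]
      conv_rhs => rw [Finset.sum_comm]
      refine Finset.sum_congr rfl fun k _ => ?_
      rw [sum_quot Q]
      exact Finset.sum_comm
    have hz : ∑ q : Q, h (α (q : V)⁻¹ * a) = 0 := by
      rw [← map_sum, ← Finset.sum_mul]
      have h1 : ∑ q : Q, α (q : V)⁻¹ = ∑ q : Q, α q :=
        Fintype.sum_bijective (fun q : Q => q⁻¹) (inv_involutive.bijective) _ _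
          fun q => by rw [Subgroup.coe_inv]
      rw [h1, ha', map_zero]
    have hsum' : a = ∑ q : Q, (α q - 1) * h (α (q : V)⁻¹ * a) := by
      have h1 : ∑ q : Q, (α q - 1) * h (α (q : V)⁻¹ * a) =
          ∑ q : Q, α q * h (α (q : V)⁻¹ * a) - ∑ q : Q, h (α (q : V)⁻¹ * a) := by
        rw [← Finset.sum_sub_distrib]
        exact Finset.sum_congr rfl fun q _ => by rw [sub_mul, one_mul]
      rw [h1, hz, sub_zero]
      exact hsum
    rw [hsum']
    refine nil_sum (fun q : Q => α q - 1) ?_ ?_ _ _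
    · intro q b
      rw [sub_mul, mul_sub, one_mul, mul_one, hQ.cen q q.2]
    · intro q
      obtain ⟨k, hk⟩ := hV (q : V)
      refine ⟨ℓ ^ k, ?_⟩
      rw [sub_pow_char_pow_of_commute _ _ (Commute.one_right (α (q : V))), one_pow, ← map_pow, hk,
        map_one, sub_self]

end Pool.Agent.PSS.S5.H8
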