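import Pool.Agent.PSS.StmtsS5
import Pool.Agent.Helper62_PSS.BBK
import Pool.Agent.Helper80_PSS.ZRT

/-!
# Squad PSS, row NZS: `E` trivial, `dim Z(A) = |V|`
-/

set_option autoImplicit false

open scoped BigOperators

noncomputable section

namespace Pool.Agent.PSS.S5.H8

open Pool.Agent.PSS Pool.Agent.PSS.S5
open Pool.Agent.PSS.S0 (IsBQ)

/-- Commuting nilpotent maps have a common kernel in a stable nonzero subspace. -/
theorem nil_fix {F M ι : Type} [Field F] [AddCommGroup M] [Module F M]
    (t : ι → Module.End F M) (hc : ∀ i j, t i * t j = t j * t i) (hn : ∀ i, IsNilpotent (t i))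
    (N : Submodule F M) (hN : ∀ i, ∀ m ∈ N, t i m ∈ N) (w : M) (hw : w ∈ N) (hw0 : w ≠ 0)
    (T : Finset ι) : ∃ w' ∈ N, w' ≠ 0 ∧ ∀ i ∈ T, t i w' = 0 := by
  classical
  induction T using Finset.induction_on with
  | empty => exact ⟨w, hw, hw0, fun i hi => absurd hi (Finset.notMem_empty i)⟩
  | insert i T hi ih =>
    obtain ⟨w', hw', hw1, hT⟩ := ih
    have hst : ∀ n : ℕ, (t i ^ n) w' ∈ N := by
      intro n
      induction n with
      | zero => rwa [pow_zero, Module.End.one_apply]
      | succ n ihn =>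
        rw [pow_succ', Module.End.mul_apply]
        exact hN i _ ihn
    have hex : ∃ n, (t i ^ n) w' = 0 := by
      obtain ⟨n, hn1⟩ := hn i
      exact ⟨n, by rw [hn1, LinearMap.zero_apply]⟩
    have hspec := Nat.find_spec hex
    have hpos : Nat.find hex ≠ 0 := by
      intro h
      rw [h, pow_zero, Module.End.one_apply] at hspec
      exact hw1 hspec
    obtain ⟨m, hm⟩ := Nat.exists_eq_succ_of_ne_zero hpos
    have hmin : (t i ^ m) w' ≠ 0 := Nat.find_min hex (by omega)
    refine ⟨(t i ^ m) w', hst m, hmin, fun j hj => ?_⟩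
    rcases Finset.mem_insert.1 hj with rfl | hj
    · rw [← Module.End.mul_apply, ← pow_succ']
      rw [hm] at hspec
      exact hspec
    · have h1 : t j * t i ^ m = t i ^ m * t j := (show Commute (t j) (t i) from hc j i).pow_right m
      rw [← Module.End.mul_apply, h1, Module.End.mul_apply, hT j hj, map_zero]

/-- translation of functions -/
def tv (F : Type) {V : Type} [Field F] [CommGroup V] (v : V) : Module.End F (V → F) where
  toFun := fun c u => c (v⁻¹ * u)
  map_add' := fun _ _ => rfl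
  map_smul' := fun _ _ => rfl

theorem tv_pow {F V : Type} [Field F] [CommGroup V] (v : V) (n : ℕ) :
    tv F v ^ n = tv F (v ^ n) := by
  induction n with
  | zero =>
    rw [pow_zero, pow_zero]
    ext c u
    simp [tv]
  | succ n ih =>
    rw [pow_succ, ih]
    ext c u
    simp only [tv, Module.End.mul_apply, LinearMap.coe_mk, AddHom.coe_mk]
    rw [pow_succ, mul_inv, mul_assoc, mul_left_comm]

theorem tv_nil {ℓ : ℕ} [Fact ℓ.Prime] {F V : Type} [Field F] [CharP F ℓ] [CommGroup V]
    (hV : IsPGroup ℓ V) (v : V) : IsNilpotent (tv F v - 1) := by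
  obtain ⟨k, hk⟩ := hV v
  have hcp : CharP (Module.End F (V → F)) ℓ :=
    charP_of_injective_algebraMap (algebraMap F (Module.End F (V → F))).injective ℓ
  refine ⟨ℓ ^ k, ?_⟩
  rw [sub_pow_char_pow_of_commute _ _ (Commute.one_right _), one_pow, tv_pow, hk, sub_eq_zero]
  ext c u
  simp [tv]

/-- the linear map `c ↦ ∑ c u • α u` -/
def lin (F : Type) {V B : Type} [Field F] [CommGroup V] [Fintype V] [Ring B] [Algebra F B]
    (α : V →* B) : (V → F) →ₗ[F] B where
  toFun := fun c => ∑ u, c u • α u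
  map_add' := fun c d => by
    rw [← Finset.sum_add_distrib]
    exact Finset.sum_congr rfl fun u _ => by rw [Pi.add_apply, add_smul]
  map_smul' := fun s c => by
    rw [RingHom.id_apply, Finset.smul_sum]
    exact Finset.sum_congr rfl fun u _ => by rw [Pi.smul_apply, smul_eq_mul, mul_smul]

theorem lin_tv {F V B : Type} [Field F] [CommGroup V] [Fintype V] [Ring B] [Algebra F B]
    (α : V →* B) (v : V) (c : V → F) : lin F α ((tv F v - 1) c) = (α v - 1) * lin F α c := by
  rw [LinearMap.sub_apply, map_sub, Module.End.one_apply, sub_mul, one_mul]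
  congr 1
  show ∑ u, c (v⁻¹ * u) • α u = α v * ∑ u, c u • α u
  rw [Finset.mul_sum]
  symm
  refine Fintype.sum_bijective (fun u => v * u) (Group.mulLeft_bijective v) _ _ fun u => ?_
  rw [inv_mul_cancel_left, map_mul, mul_smul_comm]

/-- `lin` is injective if the sum of the elements of `V` is not zero. -/
theorem lin_inj {ℓ : ℕ} [Fact ℓ.Prime] {F V B : Type} [Field F] [CharP F ℓ] [CommGroup V]
    [Fintype V] [Ring B] [Algebra F B] (hV : IsPGroup ℓ V) (α : V →* B) (hs : ∑ u, α u ≠ 0) :
    Function.Injective (lin F α) := by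
  classical
  rw [← LinearMap.ker_eq_bot, Submodule.eq_bot_iff]
  intro w hw
  by_contra hw0
  obtain ⟨w', hw', hw1, hT⟩ := nil_fix (fun v : V => tv F v - 1) (by
    intro v u
    have h1 : tv F v * tv F u = tv F u * tv F v := by
      refine LinearMap.ext fun c => funext fun x => ?_
      show c (u⁻¹ * (v⁻¹ * x)) = c (v⁻¹ * (u⁻¹ * x))
      rw [mul_left_comm]
    simp only [sub_mul, mul_sub, mul_one, one_mul, h1]
    abel) (fun v => tv_nil hV v) (LinearMap.ker (lin F α)) (by
    intro v m hm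
    rw [LinearMap.mem_ker] at hm ⊢
    rw [lin_tv, hm, mul_zero]) w hw hw0 Finset.univ
  have h1 : ∀ v, w' v = w' 1 := by
    intro v
    have h2 := congrFun (hT v (Finset.mem_univ v)) v
    rw [LinearMap.sub_apply, Pi.sub_apply, Module.End.one_apply, Pi.zero_apply] at h2
    have h3 : w' (v⁻¹ * v) - w' v = 0 := h2
    rw [inv_mul_cancel] at h3
    exact (eq_of_sub_eq_zero h3).symm
  have h2 : lin F α w' = w' 1 • ∑ u, α u := by
    show ∑ u, w' u • α u = _
    rw [Finset.smul_sum]
    exact Finset.sum_congr rfl fun u _ => by rw [h1 u]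
  rw [LinearMap.mem_ker.1 hw'] at h2
  rcases smul_eq_zero.1 h2.symm with h3 | h3
  · apply hw1
    funext v
    rw [h1 v, h3, Pi.zero_apply]
  · exact hs h3

theorem nzs (hbq : S0.BqxStmt) (hbp : S0.BpuStmt) (hmc : S0.MckStmt) : NzsStmt := by
  classical
  intro ℓ _ F V E A _ _ _ _ _ _ _ _ φ α hV hφ hL hdim z z' hz hz' hn
  obtain ⟨lam, K, _, x, y, hRF, hlam⟩ := hL.frm
  obtain ⟨B, _, _, αB, β, hβ⟩ := hbq F V A α ⊤
  have hℓ : (ℓ : F) = 0 := CharP.cast_eq_zero F ℓ
  obtain ⟨-, -, lamB, KB, _, xB, yB, hRB, hlB⟩ := hbp ℓ F V E A B K φ α ⊤ αB β lam x y ⊤ hℓ hV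
    hL.per hL.uni hRF hβ (by
      intro e
      refine ⟨fun _ q _ => ?_, fun _ => Subgroup.mem_top e⟩
      rw [hφ e]
      rfl)
  have hal : ∀ v, α v ∈ FxR (cw F α) ⊤ := fun v => al_mem_cw v ⊤
  have hcen : ∀ a : A, (∀ b, a * b = b * a) → a ∈ FxR (cw F α) ⊤ := by
    intro a ha
    rw [mem_cw]
    exact fun q _ => (ha (α q)).symm
  have h0 : β 0 = 0 := by
    have h1 := hβ.smul 0 0 (Submodule.zero_mem _)
    rwa [zero_smul, zero_smul] at h1
  -- the linear map
  have hlin : ∀ c : V → F, β (∑ u, c u • α u) = lin F αB c := by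
    intro c
    rw [S0.H62.be_sum hβ Finset.univ α c hal]
    exact Finset.sum_congr rfl fun u _ => by rw [hβ.om]
  have hsig : β (∑ v, α v) = ∑ v, αB v := by
    have h1 := hlin fun _ => 1
    simp only [one_smul] at h1
    rw [h1]
    exact Finset.sum_congr rfl fun u _ => one_smul F _
  have hsa : ∑ v, α v ∈ FxR (cw F α) ⊤ := Submodule.sum_mem _ fun v _ => hal v
  have hsB : ∑ v, αB v ≠ 0 := by
    intro h
    apply hlam
    rw [← hlB _ hsa, hsig, h, map_zero]
  have hinj : Function.Injective (lin F αB) := lin_inj hV αB hsB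
  have hsur : Function.Surjective (lin F αB) := by
    intro b
    obtain ⟨a, ha, rfl⟩ := hβ.surj b
    obtain ⟨c, hc⟩ := hL.spn a ha
    refine ⟨c, ?_⟩
    have hs : ∑ u, c u • α u ∈ FxR (cw F α) ⊤ :=
      Submodule.sum_mem _ fun v _ => Submodule.smul_mem _ _ (hal v)
    have hd : a - ∑ u, c u • α u ∈ FxR (cw F α) ⊤ := Submodule.sub_mem _ ha hs
    have h1 := (hβ.ker _ hd).2 hc
    have h2 := hβ.add _ hd _ hs
    rw [sub_add_cancel, h1, zero_add] at h2
    rw [← hlin, ← h2]
  have hBc : ∀ b c : B, b * c = c * b := by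
    intro b c
    obtain ⟨f, rfl⟩ := hsur b
    obtain ⟨g, rfl⟩ := hsur c
    show (∑ u, f u • αB u) * (∑ v, g v • αB v) = (∑ v, g v • αB v) * ∑ u, f u • αB u
    rw [Finset.sum_mul_sum, Finset.sum_mul_sum, Finset.sum_comm]
    refine Finset.sum_congr rfl fun v _ => Finset.sum_congr rfl fun u _ => ?_
    rw [smul_mul_smul_comm, smul_mul_smul_comm, ← map_mul, ← map_mul, mul_comm (f u), mul_comm u]
  -- the unit
  obtain ⟨G, hG⟩ : ∃ G : B →ₗ[F] B, ∀ b, G b = ∑ v, lamB (αB v⁻¹ * b) • αB v := by
    refine ⟨{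
      toFun := fun b => ∑ v, lamB (αB v⁻¹ * b) • αB v
      map_add' := fun b c => by
        rw [← Finset.sum_add_distrib]
        refine Finset.sum_congr rfl fun v _ => ?_
        rw [mul_add, map_add, add_smul]
      map_smul' := fun s b => by
        rw [RingHom.id_apply, Finset.smul_sum]
        refine Finset.sum_congr rfl fun v _ => ?_
        rw [mul_smul_comm, map_smul, smul_eq_mul, mul_smul] }, fun b => rfl⟩
  have hGu : ∀ u b, G (αB u * b) = αB u * G b := by
    intro u b
    rw [hG, hG, Finset.mul_sum]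
    symm
    refine Fintype.sum_bijective (fun v => u * v) (Group.mulLeft_bijective u) _ _ fun v => ?_
    rw [mul_smul_comm, ← map_mul, ← mul_assoc, ← map_mul]
    refine congrArg₂ (fun s t => lamB (s * b) • t) (congrArg αB ?_) rfl
    rw [mul_inv, mul_comm u⁻¹, mul_assoc, inv_mul_cancel, mul_one]
  have hGm : ∀ b c, G (b * c) = b * G c := by
    intro b c
    obtain ⟨f, rfl⟩ := hsur b
    show G ((∑ u, f u • αB u) * c) = (∑ u, f u • αB u) * G c
    rw [Finset.sum_mul, Finset.sum_mul, map_sum]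
    refine Finset.sum_congr rfl fun u _ => ?_
    rw [smul_mul_assoc, smul_mul_assoc, map_smul, hGu]
  have hze : (∑ k, xB k * yB k) * G 1 = 1 := by
    have h1 := hRB.e1 1
    conv_rhs => rw [← h1]
    rw [Finset.sum_mul]
    refine Finset.sum_congr rfl fun k _ => ?_
    have h2 : G (yB k) = yB k * G 1 := by
      rw [← hGm, mul_one]
    rw [mul_assoc, ← h2, hG, Finset.mul_sum]
    refine Finset.sum_congr rfl fun v _ => ?_
    rw [mul_smul_comm, mul_one]
  -- the trace
  have hrt : ∀ a ∈ FxR (cw F α) ⊤, β (∑ k, x k * a * y k) = (∑ k, xB k * yB k) * β a := by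
    intro a ha
    have h1 := hmc ℓ F V E A B K KB φ α ⊤ αB β lam x y lamB xB yB (fun _ => 1) (fun _ => 1) {1}
      hℓ hV hL.per hRF hβ hRB hlB (fun e => ⟨one_mul 1, one_mul 1, fun u => by
        rw [hφ e, one_mul, mul_one]
        rfl⟩) (fun e => ⟨1, ⟨Finset.mem_singleton_self 1, fun q _ => by rw [hφ 1, hφ e]⟩,
          fun t ht => Finset.mem_singleton.1 ht.1⟩) a ha
    rw [h1, Finset.sum_singleton, one_mul, mul_one, Finset.sum_mul]
    refine Finset.sum_congr rfl fun k _ => ?_
    rw [mul_assoc, hBc (β a), mul_assoc]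
  -- the centre
  have hzc : ∀ c : Subalgebra.center F A, (c : A) ∈ FxR (cw F α) ⊤ := fun c =>
    hcen _ fun b => ((Subalgebra.mem_center_iff.1 c.2) b).symm
  obtain ⟨βz, hβz⟩ : ∃ βz : Subalgebra.center F A →ₗ[F] B, ∀ c, βz c = β (c : A) :=
    ⟨{ toFun := fun c => β (c : A)
       map_add' := fun c d => by
        rw [Subalgebra.coe_add]
        exact hβ.add _ (hzc c) _ (hzc d)
       map_smul' := fun s c => by
        rw [RingHom.id_apply, Subalgebra.coe_smul]
        exact hβ.smul s _ (hzc c) }, fun c => rfl⟩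
  have hzs : Function.Surjective βz := by
    intro b
    obtain ⟨a, ha, hab⟩ := hβ.surj (G 1 * b)
    have hc : ∀ c : A, c * ∑ k, x k * a * y k = (∑ k, x k * a * y k) * c :=
      S0.H80.zrt F V A K α lam x y hRF a ha
    refine ⟨⟨∑ k, x k * a * y k, Subalgebra.mem_center_iff.2 hc⟩, ?_⟩
    rw [hβz]
    show β (∑ k, x k * a * y k) = b
    rw [hrt a ha, hab, ← mul_assoc, hze, one_mul]
  have hfd : FiniteDimensional F A := hL.fin
  have eB : (V → F) ≃ₗ[F] B := LinearEquiv.ofBijective (lin F αB) ⟨hinj, hsur⟩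
  have hfB : FiniteDimensional F B := Module.Finite.equiv eB
  have hdB : Module.finrank F B = Nat.card V := by
    rw [← eB.finrank_eq, Module.finrank_fintype_fun_eq_card, Nat.card_eq_fintype_card]
  have hzi : Function.Injective βz :=
    (LinearMap.injective_iff_surjective_of_finrank_eq_finrank (hdim.trans hdB.symm)).2 hzs
  have hzi' : ∀ c : A, (∀ b, c * b = b * c) → β c = 0 → c = 0 := by
    intro c hc hc0
    have h1 : (⟨c, Subalgebra.mem_center_iff.2 fun b => (hc b).symm⟩ :
        Subalgebra.center F A) = 0 := by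
      apply hzi
      rw [hβz, map_zero]
      exact hc0
    exact congrArg Subtype.val h1
  -- the multiples of the sum
  have hmul : ∀ z : A, (∀ a, z * a = a * z) →
      (∀ n, (∀ a, n * a = a * n) → IsNilpotent n → n * z = 0) →
      ∃ c : F, β z = c • ∑ v, αB v := by
    intro z hz hn
    obtain ⟨w, hw⟩ := hsur (β z)
    have hw1 : ∀ v, (tv F v - 1) w = 0 := by
      intro v
      obtain ⟨n, hn'⟩ := hzs (αB v - 1)
      rw [hβz] at hn'
      have hnc : ∀ a, (n : A) * a = a * n := fun a => ((Subalgebra.mem_center_iff.1 n.2) a).symm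
      have hnil : IsNilpotent (n : A) := by
        rcases subsingleton_or_nontrivial B with hB | hB
        · exact ⟨1, by rw [pow_one]; exact hzi' _ hnc (Subsingleton.elim _ _)⟩
        obtain ⟨k, hk⟩ := hV v
        have hcp : CharP B ℓ := charP_of_injective_algebraMap (algebraMap F B).injective ℓ
        have hpow : ∀ m : ℕ, (n : A) ^ m ∈ FxR (cw F α) ⊤ ∧ β ((n : A) ^ m) = (αB v - 1) ^ m := by
          intro m
          induction m with
          | zero =>
            rw [pow_zero, pow_zero]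
            exact ⟨hcen 1 fun b => by rw [one_mul, mul_one], hβ.one⟩
          | succ m ih =>
            refine ⟨hcen _ fun b => (show Commute ((n : A) ^ (m + 1)) b from
              (show Commute (n : A) b from hnc b).pow_left _).eq, ?_⟩
            rw [pow_succ, hβ.mul _ ih.1 _ (hzc n), ih.2, hn', pow_succ]
        refine ⟨ℓ ^ k, hzi' _ (fun b => (show Commute ((n : A) ^ (ℓ ^ k)) b from
              (show Commute (n : A) b from hnc b).pow_left _).eq) ?_⟩
        rw [(hpow _).2, sub_pow_char_pow_of_commute _ _ (Commute.one_right _), one_pow, ← map_pow, hk,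
          map_one, sub_self]
      have h1 := hn n hnc hnil
      have h2 : (αB v - 1) * β z = 0 := by
        rw [← hn', ← hβ.mul _ (hzc n) _ (hcen z hz), h1, h0]
      apply hinj
      rw [lin_tv, map_zero, hw, h2]
    refine ⟨w 1, ?_⟩
    have h1 : ∀ v, w v = w 1 := by
      intro v
      have h2 := congrFun (hw1 v) v
      rw [LinearMap.sub_apply, Pi.sub_apply, Module.End.one_apply, Pi.zero_apply] at h2
      have h3 : w (v⁻¹ * v) - w v = 0 := h2
      rw [inv_mul_cancel] at h3
      exact (eq_of_sub_eq_zero h3).symm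
    rw [← hw]
    show ∑ u, w u • αB u = _
    rw [Finset.smul_sum]
    exact Finset.sum_congr rfl fun u _ => by rw [h1 u]
  obtain ⟨c, hc⟩ := hmul z hz fun n h1 h2 => (hn n h1 h2).1
  obtain ⟨c', hc'⟩ := hmul z' hz' fun n h1 h2 => (hn n h1 h2).2
  by_cases h : c = 0
  · refine ⟨1, 0, Or.inl one_ne_zero, ?_⟩
    rw [one_smul, zero_smul, add_zero]
    exact hzi' z hz (by rw [hc, h, zero_smul])
  · refine ⟨c', -c, Or.inr (neg_ne_zero.2 h), ?_⟩
    apply hzi'
    · intro b
      rw [add_mul, mul_add, smul_mul_assoc, smul_mul_assoc, mul_smul_comm, mul_smul_comm, hz, hz']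
    · rw [hβ.add _ (Submodule.smul_mem _ _ (hcen z hz)) _ (Submodule.smul_mem _ _ (hcen z' hz')),
        hβ.smul _ _ (hcen z hz), hβ.smul _ _ (hcen z' hz'), hc, hc', smul_smul, smul_smul,
        ← add_smul, neg_mul, mul_comm c', add_neg_cancel, zero_smul]

end Pool.Agent.PSS.S5.H8
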